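import Pool.Agent.Helper264.NT.NearR
import Pool.Agent.TH818.AP.LiInd
import Pool.Agent.TH818.AP.LiLoc

/-!
# Polylogarithms at all tuples near all points outside of a set of dimension `n - 1`

For rational numbers `q_1, …, q_n` in `(0, 1)` (pairwise different and in general position) the period conjecture for
mixed Tate motives predicts that the `(w + 1) n + 1` numbers `π`, `log q_j`, `Li_1 (q_j)`, …, `Li_w (q_j)` are
algebraically independent. A counting result of this pool (`AlmostAllPolylogarithms`) says that most of the rational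
tuples with denominators at most `T` in a box satisfy no relation of bounded degree and height; it allows
`C T ^ (2 (n - 1) + β)` exceptions, `β` close to `2`, and says nothing about the tuples near a given point.

Here there are no exceptional tuples: there is one subset `E` of `ℝ ^ n` of Hausdorff dimension at most `n - 1` such that
for all `y` in `(0, 1) ^ n` outside of `E`, all weights `w`, all real number fields `K`, all degrees `d`, all `A` and ALL
exponents `v > 0` (arbitrarily small), no tuple `q` in `K ^ n` of height at most `T` with `|q - y| ≤ T ^ (-v)` satisfies a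
relation, even an approximate one, of degree at most `d` and height at most `T ^ A`, if `T` is large. For `v < 1` and every
`y` there are such rational tuples for all large `T`. The bound for the dimension is sharp: if `y_1 = y_2` then there are
rational tuples with `q_1 = q_2` near `y`, so `E` contains these hyperplanes.

Proof: the exceptional tuples lie on `C T ^ ε` hypersurfaces of degree at most `D` (`Pool.Agent.Y771.KF.stdK` of helper771
and helper124, with the algebraic independence of the functions). The new part: the zeros of any nonzero polynomial of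
degree at most `D` in a ball are covered by `C δ ^ (-s)` balls of radius `δ`, for every `s > n - 1`, where `C` depends only
on `n`, `D` and `s` (`Pool.Agent.Helper264.NT.cov_zeros`), so that the points near exceptional tuples form a set of
dimension at most `n - 1`.
-/

set_option autoImplicit false

open Height
open scoped ENNReal

namespace Pool.Agent.Results.MP_1eadae_ag.NearEveryPoint

/-- `f_0(t) = log t`, and for `k ≥ 1` the polylogarithm `f_k(t) = Li_k(t) = ∑_{m ≥ 1} t^m / m^k`
(so `f_1(t) = -log(1 - t)`). -/
noncomputable def f (k : ℕ) (t : ℝ) : ℝ := if k = 0 then Real.log t else ∑' m : ℕ, t ^ (m + 1) / ((m : ℝ) + 1) ^ k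

/-- The `(w + 1) n + 1` numbers `π`, `log q_j`, `Li_1(q_j)`, …, `Li_w(q_j)`. -/
noncomputable def periods {n : ℕ} (w : ℕ) (q : Fin n → ℝ) (x : Option (Fin n × Fin (w + 1))) : ℝ :=
  match x with
  | none => Real.pi
  | some (j, k) => f (k : ℕ) (q j)

/-- every nonzero polynomial in `(w + 1) n + 1` variables with coefficients in `K` of height at most `T ^ A`, of degree at
most `d` in each variable, takes at the `(w + 1) n + 1` numbers of the tuple `q` a value of absolute value greater than
`T ^ (-B)` -/
def NoRelation {n : ℕ} (w : ℕ) {K : IntermediateField ℚ ℝ} [NumberField K] (d : ℕ) (A B T : ℝ) (q : Fin n → K) : Prop :=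
  ∀ P : MvPolynomial (Option (Fin n × Fin (w + 1))) K, P ≠ 0 → (∀ i, P.degreeOf i ≤ d) →
    (∀ s, mulHeight₁ (P.coeff s) ≤ T ^ A) →
      T ^ (-B) < |MvPolynomial.eval₂ (algebraMap K ℝ) (periods w fun j => (q j : ℝ)) P|

/-- Let `n ≥ 1`. There is a subset `E` of `ℝ ^ n` of Hausdorff dimension at most `n - 1` such that for all `y` in
`(0, 1) ^ n` outside of `E`, all `w`, all real number fields `K`, all `d`, `A` and `v > 0` there are `B` and `T₀` such that
for all `T ≥ T₀` all `n`-tuples `q` of elements of `K` of height at most `T` with `|q_j - y_j| ≤ T ^ (-v)` have no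
relation. -/
theorem result (n : ℕ) (hn : 1 ≤ n) :
    ∃ E : Set (Fin n → ℝ), dimH E ≤ ((n - 1 : ℕ) : ℝ≥0∞) ∧ ∀ y ∉ E, (∀ j, 0 < y j ∧ y j < 1) →
      ∀ (w : ℕ) (K : IntermediateField ℚ ℝ) [NumberField K] (d : ℕ) (A v : ℝ), 0 < v → ∃ B T₀ : ℝ, ∀ T ≥ T₀,
        ∀ q : Fin n → K, (∀ j, mulHeight₁ (q j) ≤ T ∧ |(q j : ℝ) - y j| ≤ T ^ (-v)) → NoRelation w d A B T q := by
  have hnn : Nonempty (Fin n) := ⟨⟨0, hn⟩⟩
  have hf : ∀ k : ℕ, f k = TH818.AP.pl k := by
    intro k
    funext t
    simp [TH818.AP.pl, f, TH818.AP.Li]
  have hmain := fun w : ℕ => Pool.Agent.Helper264.NT.mainR (X := Fin n) (κ := Fin (w + 1)) (fun _ i => f (i : ℕ))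
    (fun _ => Set.Ioo (0 : ℝ) 1) (fun _ => isOpen_Ioo) (fun _ => isPreconnected_Ioo) (by
      intro _ i t ht
      rw [hf]
      by_cases hi : (i : ℕ) = 0
      · have : TH818.AP.pl (i : ℕ) = Real.log := by funext t; simp [TH818.AP.pl, hi]
        rw [this]
        exact analyticAt_log ht.1
      · have : TH818.AP.pl (i : ℕ) = TH818.AP.Li (i : ℕ) := by funext t; simp [TH818.AP.pl, hi]
        rw [this]
        exact TH818.AP.liAn _ t ⟨by linarith [ht.1], ht.2⟩)
    (fun _ => Pool.Agent.Helper264.NT.aindepS_of_rindep _ (1 / 4) (1 / 2) (fun d => by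
      have hind := TH818.AP.liInd_of TH818.AP.liAn TH818.AP.liLoc w d (1 / 4) (1 / 2) (by norm_num) (by norm_num)
        (by norm_num)
      have : (fun (e : Fin (w + 1) → Fin (d + 1)) (t : ℝ) => ∏ i : Fin (w + 1), f (i : ℕ) t ^ (e i : ℕ)) =
          fun e : Fin (w + 1) → Fin (d + 1) => TH818.AP.gLi e := by
        funext e t
        simp only [TH818.AP.gLi]
        exact Finset.prod_congr rfl fun i _ => by rw [hf i]
      rw [this]
      exact hind) _ fun t ht => ⟨by linarith [ht.1], by linarith [ht.2]⟩)
  choose E hE1 hE2 using hmain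
  refine ⟨⋃ w, E w, ?_, ?_⟩
  · rw [dimH_iUnion]
    exact iSup_le fun w => by simpa using hE1 w
  · intro y hy hy01 w K _ d A v hv
    obtain ⟨B, T0, h⟩ := hE2 w y (fun h => hy (Set.mem_iUnion.2 ⟨w, h⟩)) hy01 K d A v hv
    refine ⟨B, T0, fun T hT q hq P hP hd hc => ?_⟩
    have h1 := (h T hT q hq).2 P hP hd hc
    have h2 : (fun o : Option (Fin n × Fin (w + 1)) => o.elim Real.pi fun c => f (c.2 : ℕ) (q c.1 : ℝ)) =
        periods w fun j => (q j : ℝ) := by
      funext o
      cases o <;> rfl
    rw [← h2]
    exact h1

end Pool.Agent.Results.MP_1eadae_ag.NearEveryPoint
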