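import Pool.Agent.V11219.OmRel

/-!
# Kontsevich's conjecture in bounded degree for almost all fibres of families of 1-motives over families of
abelian varieties with local monodromy conditions

Let `h_i`, `1 ≤ i ≤ k`, be families of G-functions over `ℚ` (with the conditions of Siegel and
Galochkin, regular singular with rational exponents at `0`) and let `P_i(x)` be square matrices of size
`p_i + q_i` whose entries are polynomials with complex coefficients in `log x` and in the functions
`h_{i,l}(x)`: the period matrices of families of 1-motives `M_{i,x} = [ℤ^{q_i} → A_{i,x}]`, where the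
`A_i = ∏_j A_ij` are families of abelian varieties over an open part of the line, near a rational
point which may be a point of degeneration, and the `q_i` points are algebraic sections. In other
words these are the periods of the relative cohomology `H^1(A, {O, P_1, …, P_q})` (for Jacobians:
`H^1(C, D)` with divisors `D` of curves `C`): the integrals of the differential forms of the first
and second kind over the cycles (the first `p_i` rows) and over the paths to the points (the last
`q_i` rows). The `a`-th point is a section of the factor with the index `γ_i(a)`, and `β_i(b)` is the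
index of the factor of the `b`-th cycle. Let `Gal(P_i)` be the group of the matrices `g` such that
`P_i` and `g P_i` satisfy the same polynomial relations over `ℂ(x)` (the Zariski closure of the
monodromy group, if `P_i` is a fundamental matrix of a system).

**Conditions** (`PathMonodromy`). Every element of `Gal(P_i)` is of the form `((g, 0), (w, 1))`; the group
of the `g` satisfies the condition `LocalMonodromy` on the local monodromy: it is block diagonal,
respects the polarisations up to characters, acts strongly irreducibly on the pieces `H_1(A_ij)`, no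
two of which are isomorphic up to scalars; for every piece there is an element `g`, with
`(g - 1) ^ 2 = 0` (the local monodromy around a point of semistable reduction), such that the rank
of `g - 1` on the piece and the multiplicities of the nonzero eigenvalues of the `(g - 1) (g' - 1)`,
for other elements `g'` of this type, are coprime, or contain the number two (or the variant with
several elements). No nonzero linear combination of the cycles and paths is fixed by `Gal(P_i)`
(the sections are independent).

**Theorem.** For every `D`, for almost all tuples of integers `t` (all but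
`C N^(k-1) ∑_i (1 + N / (x_i + N)^c)` of the tuples in the box `∏_i (x_i, x_i + N]`) the following holds
for all number fields `K` of degree at most `D` at once. Let `c = C₀ ⊕ ⨁_i P_i(1 / t_i)` be the period
matrix of the sum of an object `M_0` with any period matrix `C₀` and of the fibres at
`x_i = 1 / t_i`. Let `F` be any polynomial of degree at most `D` over `K` which vanishes at `c`: a
linear relation between the periods of the tensor powers of `M_0 ⊕ ⨁ M_i`.

1. (relative to `M_0`) `F` vanishes at `C₀ ⊕ ⨁_i ((X_i, 0), (w_i, 1))` for all `X_i`, `w_i` compatible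
   with the pieces such that the `X_i` satisfy the same Riemann relations `X_i Q_i X_i^t = μ_ij B_i` as
   the periods of the `A_i`, and the `w_i` are arbitrary.
2. (absolute) If `C₀ = 2πi`, and the `B_i`, `Q_i` have entries in `K` and the Riemann relations for
   the periods have the factors `(2πi)^(w_ij)`, then `F` vanishes at `z ⊕ ⨁_i ((X_i, 0), (x_i, 1))`
   for all `z ≠ 0`, `X_i Q_i X_i^t = z^(w_ij) B_i` on the pieces, `x_i` arbitrary and compatible with the
   pieces. The torsor of motivic isomorphisms consists of such matrices, since polarisations are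
   motivic; so `F` is zero as an element of the algebra of formal periods of `ℚ(-1) ⊕ ⨁ M_i`: the
   evaluation of formal periods is injective on the elements of degree at most `D`, and all relations
   of degree at most `D` between the periods of the 1-motives are consequences of the Riemann relations.

Moreover there are `D(N) → ∞` and `δ(N) → 0` such that for all but `δ(N) N^k` tuples `t` in `[1, N]^k`
this is true for all number fields of degree at most `D(N)` and all relations of degree at most `D(N)`.

Proof. The Lie algebra of the derivations which preserve the relations of `P_i` contains `sp` of each piece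
modulo the radical, by a theorem on extremal elements and Goursat's lemma (see `MP_90d181_ag`). If it
does not contain the whole radical, some functional of the paths defines a cocycle of `sp` with values
in the standard representation; this is a coboundary by a calculation with elements of rank one, and
gives a combination of the cycles and paths which is fixed by `Gal(P_i)`. So `Gal(P_i)` (and even its
identity component) contains all matrices `((g, 0), (w, 1))` with an isometry `g` of the polarisations
of the pieces and `w` compatible with the pieces. By the theorem on values of G-functions of helper120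
and the theorem of helper273 on all number fields at once, relations of degree at most `D` of the
period point are relations of its translates under this group. In the absolute case we use
automorphisms of `ℂ`, the transcendence of `π` and the curve given by the weights.
-/

set_option autoImplicit false

open PowerSeries Filter
open scoped Matrix

namespace Pool.Agent.Results.MP_1eadae_ag.OneMotiveRelations

open Pool.Agent.V11219.Per Pool.Agent.V11219.Om

theorem iter_eq {r : ℕ} (T : Polynomial ℤ) (A : Fin r → Fin r → Polynomial ℤ) (s : ℕ) :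
    iter T A s = Pool.Agent.Y120.GH.itm T A s := by
  induction s with
  | zero => rfl
  | succ s ih =>
    funext i j
    rw [iter, Pool.Agent.Y120.GH.itm, ih]

theorem qu_eq {r : ℕ} {T : Polynomial ℤ} {A : Fin r → Fin r → Polynomial ℤ}
    (h : QuasiUnipotent T A) : Pool.Agent.Y120.GH.QU0 T A := by
  obtain ⟨e, M, K, Φ, he, hdet, hc, heq⟩ := h
  have he0 : e ≠ 0 := by omega
  refine ⟨e, he0, M, K, Φ, hc, fun i j n => ?_, hdet⟩
  have h1 := heq i j n
  simp only [atPow] at h1
  rw [Pool.Agent.Y120.GH.expand_poly he0]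
  simp only [Pool.Agent.Y120.GH.expand_poly he0]
  exact h1

theorem fam {r : ℕ} {T : Polynomial ℤ} {A : Fin r → Fin r → Polynomial ℤ}
    {h : Fin r → PowerSeries ℚ} (hG : GFamily T A h) (δ : ℕ) : Pool.Agent.Y120.R.Fam δ h :=
  ⟨hG.size, Pool.Agent.Y120.GH.family_main hG.T_ne hG.ode hG.size hG.den (by
    obtain ⟨C, hC⟩ := hG.galochkin
    refine ⟨C, fun m => ?_⟩
    obtain ⟨d, h1, h2, h3⟩ := hC m
    refine ⟨d, h1, h2, fun s hs i' j' => ?_⟩
    rw [← iter_eq]
    exact h3 s hs i' j') (qu_eq hG.regular) δ⟩

section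
variable {k r : ℕ} {p q ρ : Fin k → ℕ}

/-- the block matrix `x ⊕ Y_1 ⊕ … ⊕ Y_k` -/
noncomputable def total (x : Matrix (Fin r) (Fin r) ℂ)
    (Y : ∀ i, Matrix (Fin (p i + q i)) (Fin (p i + q i)) ℂ) :
    Matrix (Fin r ⊕ Σ i, Fin (p i + q i)) (Fin r ⊕ Σ i, Fin (p i + q i)) ℂ :=
  Matrix.fromBlocks x 0 0 (Matrix.blockDiagonal' Y)

/-- `F` is a polynomial relation of degree at most `d` with coefficients in `K` between the entries of
the matrix `y`. -/
def IsRelation {I : Type} (K : Subfield ℂ) (d : ℕ) (F : MvPolynomial (I × I) ℂ) (y : Matrix I I ℂ) :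
    Prop :=
  (∀ s, F.coeff s ∈ K) ∧ F.totalDegree ≤ d ∧ MvPolynomial.eval (fun b => y b.1 b.2) F = 0

/-- The conclusion for one tuple; `Z i` is the period matrix of the fibre of the `i`-th family. -/
def Good (D : ℕ) (C₀ : Matrix (Fin r) (Fin r) ℂ) (h : ∀ i, Fin (ρ i) → PowerSeries ℚ)
    (P : ∀ i, Fin (p i + q i) → Fin (p i + q i) → MvPolynomial (Option (Fin (ρ i))) ℂ)
    (Z : ∀ i, Matrix (Fin (p i + q i)) (Fin (p i + q i)) ℂ) : Prop :=
  ∀ K : Subfield ℂ, FiniteDimensional ℚ K → Module.finrank ℚ K ≤ D →
  ∀ (m : Fin k → ℕ) (β : ∀ i, Fin (p i) → Fin (m i)) (γ : ∀ i, Fin (q i) → Fin (m i))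
    (B Q : ∀ i, Matrix (Fin (p i)) (Fin (p i)) ℂ),
  (∀ i, PathMonodromy (β i) (γ i) (B i) (Gal (h i) (P i))) →
  -- 1: the relative form
  (∀ F, IsRelation K D F (total C₀ Z) → ∀ μ : ∀ i, Fin (m i) → ℂ, (∀ i j, μ i j ≠ 0) →
    RespectsAll β γ B Q μ Z → ∀ Y, RespectsAll β γ B Q μ Y → IsRelation K D F (total C₀ Y)) ∧
  -- 2: the absolute form
  (C₀ = (2 * Real.pi * Complex.I : ℂ) • 1 → (∀ i a b, B i a b ∈ K ∧ Q i a b ∈ K) →
    ∀ F, IsRelation K D F (total C₀ Z) → ∀ w : ∀ i, Fin (m i) → ℕ,
    RespectsAll β γ B Q (fun i j => (2 * Real.pi * Complex.I : ℂ) ^ w i j) Z →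
    ∀ z : ℂ, z ≠ 0 → ∀ Y, RespectsAll β γ B Q (fun i j => z ^ w i j) Y →
      IsRelation K D F (total (z • 1) Y))

theorem good_of {D : ℕ} {C₀ : Matrix (Fin r) (Fin r) ℂ} {h : ∀ i, Fin (ρ i) → PowerSeries ℚ}
    {P : ∀ i, Fin (p i + q i) → Fin (p i + q i) → MvPolynomial (Option (Fin (ρ i))) ℂ}
    {t : Fin k → ℕ} (hg : Pool.Agent.V11273.GH.GoodI D C₀ h P t) :
    Good D C₀ h P fun i => perMat (h i) (P i) (t i : ℝ) := by
  intro K hKf hKD m β γ B Q hL
  have hKalg : ∀ x ∈ K, IsAlgebraic ℚ x := by
    intro x hx
    have : NumberField K := { to_charZero := inferInstance, to_finiteDimensional := hKf }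
    have h6 : IsAlgebraic ℚ (⟨x, hx⟩ : K) := Algebra.IsAlgebraic.isAlgebraic _
    exact h6.algebraMap (A := ℂ)
  have hR := relE_of hg hKf hKD hL
  refine ⟨?_, ?_⟩
  · intro F hF μ hμ hZ Y hY
    exact ⟨hF.1, hF.2.1, relativeE hR (fun i => (hL i).cycles.form.unit) hF.1 hF.2.1 hF.2.2 hμ hZ
      hY⟩
  · intro hC₀ hBQ F hF w hZ z hz Y hY
    subst hC₀
    exact ⟨hF.1, hF.2.1, absoluteE hKalg hR (fun i => (hL i).cycles.form.unit)
      (fun i => (hL i).cycles.form.block) hF.1 hF.2.1 hF.2.2 (fun i a b => (hBQ i a b).1)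
      (fun i a b => (hBQ i a b).2) hZ hz hY⟩

end

/-- **The theorem.** -/
theorem result (k e r : ℕ) (ρ p q : Fin k → ℕ) (T : Fin k → Polynomial ℤ)
    (A : ∀ i, Fin (ρ i) → Fin (ρ i) → Polynomial ℤ) (h : ∀ i, Fin (ρ i) → PowerSeries ℚ)
    (hG : ∀ i, GFamily (T i) (A i) (h i)) :
    -- number fields of degree at most `D`
    (∀ D : ℕ, ∃ c C : ℝ, 0 < c ∧ 0 ≤ C ∧
      ∀ P : ∀ i, Fin (p i + q i) → Fin (p i + q i) → MvPolynomial (Option (Fin (ρ i))) ℂ,
      (∀ i a b, (P i a b).totalDegree ≤ e) → ∀ C₀ : Matrix (Fin r) (Fin r) ℂ,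
      ∀ (x : Fin k → ℕ) (N : ℕ), 1 ≤ N →
      (({t : Fin k → ℕ | (∀ i, x i < t i ∧ t i ≤ x i + N) ∧
        ¬ Good D C₀ h P fun i => perMat (h i) (P i) (t i : ℝ)}.ncard : ℕ) : ℝ) ≤
        C * (N : ℝ) ^ (k - 1) * ∑ i, (1 + N / ((x i : ℝ) + N) ^ c)) ∧
    -- number fields of degree at most `D N`, which tends to infinity
    (∃ (D : ℕ → ℕ) (δ : ℕ → ℝ), Tendsto D atTop atTop ∧ Tendsto δ atTop (nhds 0) ∧
      ∀ P : ∀ i, Fin (p i + q i) → Fin (p i + q i) → MvPolynomial (Option (Fin (ρ i))) ℂ,
      (∀ i a b, (P i a b).totalDegree ≤ e) → ∀ C₀ : Matrix (Fin r) (Fin r) ℂ, ∀ N : ℕ, 1 ≤ N →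
      (({t : Fin k → ℕ | (∀ i, 1 ≤ t i ∧ t i ≤ N) ∧
        ¬ Good (D N) C₀ h P fun i => perMat (h i) (P i) (t i : ℝ)}.ncard : ℕ) : ℝ) ≤
        δ N * (N : ℝ) ^ k) := by
  classical
  have hmain : ∀ D : ℕ, ∃ c C : ℝ, 0 < c ∧ 0 ≤ C ∧
      ∀ P : ∀ i, Fin (p i + q i) → Fin (p i + q i) → MvPolynomial (Option (Fin (ρ i))) ℂ,
      (∀ i a b, (P i a b).totalDegree ≤ e) → ∀ C₀ : Matrix (Fin r) (Fin r) ℂ,
      ∀ (x : Fin k → ℕ) (N : ℕ), 1 ≤ N →
      (({t : Fin k → ℕ | (∀ i, x i < t i ∧ t i ≤ x i + N) ∧
        ¬ Good D C₀ h P fun i => perMat (h i) (P i) (t i : ℝ)}.ncard : ℕ) : ℝ) ≤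
        C * (N : ℝ) ^ (k - 1) * ∑ i, (1 + N / ((x i : ℝ) + N) ^ c) := by
    intro D
    obtain ⟨c, C, hc, hC, hmain⟩ := Pool.Agent.V11273.GH.idc_main k D e r ρ
      (fun i => p i + q i) h fun i δ => fam (hG i) δ
    refine ⟨c, C, hc, hC, ?_⟩
    intro P hP C₀ x N hN
    set E := {t : Fin k → ℕ | (∀ i, x i < t i ∧ t i ≤ x i + N) ∧
        ¬ Good D C₀ h P fun i => perMat (h i) (P i) (t i : ℝ)} with hE
    have hfin : E.Finite := by
      refine (Set.finite_Iic (fun i : Fin k => x i + N)).subset ?_
      intro t ht i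
      exact (ht.1 i).2
    rw [Set.ncard_eq_toFinset_card E hfin]
    refine hmain P hP C₀ x N hN _ fun t ht => ?_
    have ht' : t ∈ E := hfin.mem_toFinset.1 ht
    exact ⟨ht'.1, fun hgood => ht'.2 (good_of hgood)⟩
  refine ⟨hmain, ?_⟩
  choose c C hc hC hcount using hmain
  obtain ⟨D, hD, hδ⟩ := Pool.Agent.Y123.GN.diag_seq
    (fun D N => C D * k * (1 / (N : ℝ) + 1 / (N : ℝ) ^ (c D))) (by
      intro D
      have h1 : Tendsto (fun N : ℕ => (1 : ℝ) / (N : ℝ)) atTop (nhds 0) :=
        tendsto_one_div_atTop_nhds_zero_nat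
      have h2 : Tendsto (fun N : ℕ => (1 : ℝ) / (N : ℝ) ^ (c D)) atTop (nhds 0) := by
        have h3 := (tendsto_rpow_atTop (hc D)).comp tendsto_natCast_atTop_atTop
        have h4 := h3.inv_tendsto_atTop
        refine h4.congr fun N => ?_
        rw [one_div]
        rfl
      have h5 := (h1.add h2).const_mul (C D * k)
      rw [add_zero, mul_zero] at h5
      exact h5)
  refine ⟨D, _, hD, hδ, ?_⟩
  intro P hP C₀ N hN
  have h1 := hcount (D N) P hP C₀ (fun _ => 0) N hN
  have h2 : {t : Fin k → ℕ | (∀ i, 0 < t i ∧ t i ≤ 0 + N) ∧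
      ¬ Good (D N) C₀ h P fun i => perMat (h i) (P i) (t i : ℝ)} =
      {t : Fin k → ℕ | (∀ i, 1 ≤ t i ∧ t i ≤ N) ∧
      ¬ Good (D N) C₀ h P fun i => perMat (h i) (P i) (t i : ℝ)} := by
    ext t
    simp only [Set.mem_setOf_eq, zero_add, Nat.lt_iff_add_one_le]
  rw [h2] at h1
  refine h1.trans (le_of_eq ?_)
  have hN0 : (N : ℝ) ≠ 0 := by
    have : N ≠ 0 := by omega
    exact_mod_cast this
  rw [Finset.sum_const, Finset.card_univ, Fintype.card_fin, nsmul_eq_mul, Nat.cast_zero, zero_add]
  rcases Nat.eq_zero_or_pos k with hk | hk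
  · subst hk
    simp
  · obtain ⟨s, rfl⟩ : ∃ s, k = s + 1 := ⟨k - 1, by omega⟩
    have h3 : (N : ℝ) ^ (s + 1) = (N : ℝ) ^ s * N := pow_succ _ _
    rw [Nat.add_sub_cancel, h3]
    have h4 : (1 : ℝ) + N / (N : ℝ) ^ (c (D N)) = N * (1 / (N : ℝ) + 1 / (N : ℝ) ^ (c (D N))) := by
      rw [mul_add, mul_one_div_cancel hN0, mul_one_div]
    rw [h4]
    ring

end Pool.Agent.Results.MP_1eadae_ag.OneMotiveRelations
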