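import Pool.Agent.V11273.PV.G24

/-!
# Relations between periods of almost all members of families, relative to a fixed motive, come from relations between the
# period functions

Let `F_j`, `j` in a finite set, be families of varieties (or of Nori motives) over open parts of affine spaces of any
dimensions. A family (`Family X ι`) is given here by an algebraic connection `c ∂_i Y = Y B_i` with an invertible matrix `Y` of
analytic solutions on a nonempty connected open set: a branch of the period matrix, and its Gauss-Manin connection. `galois` is
the group of the constant matrices `g` such that all polynomial relations over `ℂ[x]` between the entries of `Y` are relations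
between the entries of `g Y` (the Zariski closure of the monodromy group). We assume that it is connected, as is the case after
a finite covering of the base. Let `ξ_1, …, ξ_n` be arbitrary complex numbers: for example `1`, or the powers of `2 π i`, or
periods of a fixed motive `M_0`, or products of these.

A relation over a number field `K` between the periods of `M_0` and of products of fibres `F_j(s_j)`, `s_j` with coordinates
in `K`, is of the form `∑ ξ_i P_i(Y(s)) = 0`, where the `P_i` are polynomials over `K` in the entries of the period matrices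
`Y_j(s_j)`. There are two reasons for such relations: relations `∑ ξ_i R_i(x, Y(x)) = 0` between the period functions, where
the `R_i` are polynomials with coefficients in `ℚ̄[x]`, and special points `s`. The relations of the first kind are the ones
which are independent of `s`: without the constants `ξ_i` they are consequences of the standard relations (bilinearity,
functoriality, boundaries) for varieties over the function field, by the theorems of Ayoub and Nori on the functional
analogue of the conjecture, and specialize to consequences of the standard relations at all general `s`.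

**Theorem.** There are `ω T → ∞` such that for all large `T`, all number fields `K` of degree at most `ω T` and all `ξ_i`,
`i < ω T`, all relations `∑ ξ_i P_i(Y(s)) = 0` at points over `K` of height at most `T` (in the `ω T`-th compact set), of
partial degrees at most `ω T` and of size at most `T ^ ω T` are of the first kind, that is `P_i = R_i(s, ·)` with
`∑ ξ_i R_i(x, Y(x)) = 0` for all `x`, outside of a set of points which lies on at most `T ^ (1 / ω T)` hypersurfaces of degree
at most `T ^ (1 / ω T)`.

So the evaluation map on formal periods of bounded degree and height of the product of `M_0` and of the fibres is injective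
modulo the relations between the period functions and the `ξ_i`, for almost all algebraic points.
-/

set_option autoImplicit false

open Filter NumberField

namespace Pool.Agent.Results.MP_1eadae_ag.RelationsInFamilies

/-- an algebraic connection on the affine space `ℂ ^ X` with a fundamental matrix `Y` of analytic solutions on `U` -/
structure Family (X ι : Type) [Fintype X] [DecidableEq X] [Fintype ι] [DecidableEq ι] where
  /-- a nonempty connected open set -/
  U : Set (X → ℂ)
  isOpen : IsOpen U
  connected : IsPreconnected U
  nonempty : U.Nonempty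
  /-- the matrix of the solutions (periods) -/
  Y : (X → ℂ) → Matrix ι ι ℂ
  analytic : ∀ a b, AnalyticOnNhd ℂ (fun x => Y x a b) U
  det_ne : ∀ x ∈ U, (Y x).det ≠ 0
  /-- the common denominator of the connection -/
  c : MvPolynomial X ℂ
  c_ne : c ≠ 0
  /-- the numerators -/
  B : X → Matrix ι ι (MvPolynomial X ℂ)
  /-- `c ∂_i Y = Y B_i` -/
  eqn : ∀ x ∈ U, ∀ i a b, MvPolynomial.eval x c * fderiv ℂ (fun x => Y x a b) x (Pi.single i 1) =
    ∑ e, Y x a e * MvPolynomial.eval x (B i e b)

section
variable {X ι : Type} [Fintype X] [DecidableEq X] [Fintype ι] [DecidableEq ι]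

/-- all polynomial relations between the entries of `Y` over `ℂ[x]` are relations between the entries of `g Y` -/
def Preserves (F : Family X ι) (g : Matrix ι ι ℂ) : Prop :=
  ∀ p : MvPolynomial (ι × ι) (MvPolynomial X ℂ),
    (∀ x ∈ F.U, MvPolynomial.eval₂ (MvPolynomial.eval x) (fun v => F.Y x v.1 v.2) p = 0) →
    ∀ x ∈ F.U, MvPolynomial.eval₂ (MvPolynomial.eval x) (fun v => (g * F.Y x) v.1 v.2) p = 0

/-- the Galois group -/
def Family.galois (F : Family X ι) : Subgroup (GL ι ℂ) where
  carrier := {g | Preserves F (g : Matrix ι ι ℂ)}
  mul_mem' := fun ha hb => (Pool.Agent.V11273.PV.Gal F.U F.Y).mul_mem' ha hb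
  one_mem' := (Pool.Agent.V11273.PV.Gal F.U F.Y).one_mem'
  inv_mem' := fun ha => (Pool.Agent.V11273.PV.Gal F.U F.Y).inv_mem' ha

/-- subgroups of finite index which are defined by polynomial equations are the whole group -/
def Connected (G : Subgroup (GL ι ℂ)) : Prop :=
  ∀ H : Subgroup G, H.FiniteIndex → (∃ E : Set (MvPolynomial (ι × ι) ℂ), ∀ h : G, h ∈ H ↔
    ∀ e ∈ E, MvPolynomial.eval (fun v => ((h : GL ι ℂ) : Matrix ι ι ℂ) v.1 v.2) e = 0) → H = ⊤

end

/-- the field of algebraic numbers -/
abbrev Qbar : Type := algebraicClosure ℚ ℂ

/-- the value at `x` of a polynomial in the coordinates over the algebraic numbers -/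
noncomputable def atP {X : Type} (x : X → ℂ) : MvPolynomial X Qbar →+* ℂ :=
  (MvPolynomial.aeval x : MvPolynomial X Qbar →ₐ[Qbar] ℂ).toRingHom

/-- quotients of two integers of `K`, all conjugates of which are at most `T` -/
def HeightLe (K : Type) [Field K] [NumberField K] (T : ℝ) (x : K) : Prop :=
  ∃ a b : 𝓞 K, b ≠ 0 ∧ house (a : K) ≤ T ∧ house (b : K) ≤ T ∧ x = a / b

/-- `S` is covered by at most `m` hypersurfaces of degree at most `D` -/
def CoveredBy {X : Type} (D m : ℕ) (S : Set (X → ℂ)) : Prop :=
  ∃ Φ : Finset (MvPolynomial X ℂ), Φ.card ≤ m ∧ (∀ P ∈ Φ, P ≠ 0 ∧ P.totalDegree ≤ D) ∧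
    ∀ x ∈ S, ∃ P ∈ Φ, MvPolynomial.eval x P = 0

/-- the points of norm at most `k` at distance at least `1 / k` from the complement of `U` -/
def Inner {X : Type} [Fintype X] (U : Set (X → ℂ)) (k : ℕ) : Set (X → ℂ) :=
  {z | ‖z‖ ≤ k ∧ Metric.ball z (k : ℝ)⁻¹ ⊆ U}

section
variable {κ : Type} [Fintype κ] [DecidableEq κ] {X ι : κ → Type} [∀ j, Fintype (X j)] [∀ j, DecidableEq (X j)]
  [∀ j, Fintype (ι j)] [∀ j, DecidableEq (ι j)]

/-- the tuples of points of the domains of the families -/
def domain (F : ∀ j, Family (X j) (ι j)) : Set ((Σ j, X j) → ℂ) := {z | ∀ j, (fun i => z ⟨j, i⟩) ∈ (F j).U}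

/-- the periods of the fibres at `x_j`: the entries of the matrices `Y_j(x_j)` -/
def periods (F : ∀ j, Family (X j) (ι j)) (x : (Σ j, X j) → ℂ) (v : Σ j, ι j × ι j) : ℂ :=
  (F v.1).Y (fun i => x ⟨v.1, i⟩) v.2.1 v.2.2

/-- The relation `∑ ξ i * P i = 0` at `x₀` comes from a relation between the period functions: `P i = R i (x₀, ·)` with
polynomials `R i` over `ℚ̄[x]` of partial degrees at most `k` such that `∑ ξ i * R i (x, periods x) = 0` for all `x`. -/
def FromFunctions (F : ∀ j, Family (X j) (ι j)) (k : ℕ) (ξ : Fin k → ℂ) (x₀ : (Σ j, X j) → ℂ)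
    (P : Fin k → MvPolynomial (Σ j, ι j × ι j) ℂ) : Prop :=
  ∃ R : Fin k → MvPolynomial (Σ j, ι j × ι j) (MvPolynomial (Σ j, X j) Qbar), (∀ i v, (R i).degreeOf v ≤ k) ∧
    (∀ x ∈ domain F, ∑ i, ξ i * MvPolynomial.eval₂ (atP x) (periods F x) (R i) = 0) ∧
    ∀ i, (R i).map (atP x₀) = P i

/-- The exceptional points `s` with coordinates in `K`: they are of height at most `T`, in the compact set
`Inner (domain F) k`, and there is a relation `∑ ξ i * P i (periods at s) = 0`, `P i` polynomials over the integers of `K` of
partial degrees at most `k` and with coefficients all conjugates of which are at most `T ^ k`, which does not come from a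
relation between the period functions. -/
def Exceptional (F : ∀ j, Family (X j) (ι j)) (K : Type) [Field K] [NumberField K] (io : K →+* ℂ) (k : ℕ)
    (ξ : Fin k → ℂ) (T : ℝ) : Set ((Σ j, X j) → K) :=
  {s | (∀ i, HeightLe K T (s i)) ∧ (fun i => io (s i)) ∈ Inner (domain F) k ∧
    ∃ P : Fin k → MvPolynomial (Σ j, ι j × ι j) (𝓞 K),
      (∀ i v, (P i).degreeOf v ≤ k) ∧
      (∀ i m (φ : K →+* ℂ), ‖φ (((P i).coeff m : 𝓞 K) : K)‖ ≤ T ^ (k : ℝ)) ∧
      ∑ i, ξ i * MvPolynomial.eval₂ (io.comp (algebraMap (𝓞 K) K)) (periods F fun i => io (s i)) (P i) = 0 ∧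
      ¬ FromFunctions F k ξ (fun i => io (s i)) fun i => (P i).map (io.comp (algebraMap (𝓞 K) K))}

/-- Let `F_j`, `j` in a finite set, be families with connected Galois groups over open parts of affine spaces. There is
`ω → ∞` such that for all large `T`, all number fields `K` of degree at most `ω T`, embedded in `ℂ`, and all complex numbers
`ξ i`, `i < ω T` (for example periods of a fixed motive), the set `Exceptional F K io (ω T) ξ T` lies on at most
`T ^ (1 / ω T)` hypersurfaces of degree at most `T ^ (1 / ω T)`, and has at most `T ^ (1 / ω T) * N ^ (d - 1)` elements, where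
`d` is the dimension of the product of the bases and `N` is the number of the elements of `K` of height at most `T`. At all
other points `s_j` with coordinates in `K` of height at most `T` (in `Inner (domain F) (ω T)`), every relation between the
periods of the fibres and the `ξ i`, over `K`, of partial degrees at most `ω T` and of height at most `T ^ ω T`, is the
specialization of a relation between the period functions and the `ξ i` over the algebraic numbers. -/
theorem result [Nonempty (Σ j, X j)] (F : ∀ j, Family (X j) (ι j)) (hF : ∀ j, Connected (F j).galois) :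
    ∃ (ω : ℝ → ℕ) (T₀ : ℝ), Tendsto ω atTop atTop ∧ Monotone ω ∧ ∀ T, T₀ ≤ T → 0 < ω T ∧
      ∀ (K : Type) [Field K] [NumberField K], Module.finrank ℚ K ≤ ω T → ∀ (io : K →+* ℂ) (ξ : Fin (ω T) → ℂ),
        CoveredBy ⌊T ^ ((ω T : ℝ)⁻¹)⌋₊ ⌊T ^ ((ω T : ℝ)⁻¹)⌋₊
          ((fun s i => io (s i)) '' Exceptional F K io (ω T) ξ T) ∧
        (Exceptional F K io (ω T) ξ T).Finite ∧
        ((Exceptional F K io (ω T) ξ T).ncard : ℝ) ≤
          T ^ ((ω T : ℝ)⁻¹) * ({x : K | HeightLe K T x}.ncard : ℝ) ^ (Fintype.card (Σ j, X j) - 1) :=
  Pool.Agent.V11273.PV.main_X (U := fun j => (F j).U) (Y := fun j => (F j).Y) (fun j => (F j).connected)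
    (fun j => (F j).isOpen) (fun j => (F j).nonempty) (fun j => (F j).analytic) (fun j => (F j).det_ne)
    (fun j => (F j).c_ne) (fun j => (F j).eqn) hF

end

end Pool.Agent.Results.MP_1eadae_ag.RelationsInFamilies
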