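import Pool.Agent.Results.MP_1eadae_ag.RandomSecondKind
import Pool.Agent.V35.WB

/-!
# Periods of 1-motives with ALL exponents near almost every point or direction

As in the starting file `RandomSecondKind` let `E_j` (`j ≤ n`) be elliptic curves over the algebraic numbers with
differentials of the second kind, `a_{l,1}, …, a_{l,k}` (`l ≤ s`) logarithms of algebraic numbers, independent over `ℚ`,
and `u_{j,1}, …, u_{j,k}` elliptic logarithms of algebraic points, independent over the multiplications of `E_j`. For an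
integral matrix `m` with `s + n` rows and `k` columns we consider the `s + n` periods `t_l = τ_l + ∑_i m_{l,i} a_{l,i}` and
`σ_j ζ(p_j) + ρ_j p_j`, `p_j = b_j + ∑_i m_{j,i} u_{j,i}`. The starting theorem says that few `m` in a box are exceptional,
i.e. give periods with a polynomial relation of bounded degree with coefficients in a given space `W` of dimension at most
`N` over the algebraic numbers; it says nothing about the `m` in given regions. Here: for all real matrices `α` outside a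
set of dimension at most `((s + n) k - δ k) / (1 - θ)` there is no exceptional `m` at distance at most `v_r ^ θ` from
`v_r α`, `r` large (`v` geometric); and for all `α` outside a set of dimension at most `1 + ((s + n) k - δ k) / (1 - θ)`
there are only finitely many exceptional `m` near the whole ray through `α`. The number `δ > 0` depends only on `s`, `n`,
the degree `D` and `N`, so for large `k` these are null sets for an interval of `θ`.
-/

set_option autoImplicit false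

open scoped PeriodPair

open Module MeasureTheory

namespace Pool.Agent.Results.MP_1eadae_ag.SecondKindInWindows

open RandomSecondKind Pool.Agent.V35.WM Pool.Agent.V35.WB

/-- the integral matrix `c` -/
def mat {s n k : ℕ} (c : (Fin s ⊕ Fin n) × Fin k → ℤ) : Fin s ⊕ Fin n → Fin k → ℤ := fun x i => c (x, i)

/-- The points `p_j` are not in the lattices, the numbers `℘(p_j)` are algebraic, and the `s + n` periods `t_l` and
`σ_j ζ(p_j) + ρ_j p_j` satisfy no nonzero polynomial relation of total degree at most `D` with coefficients in `W`. -/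
def Good (D : ℕ) (W : Submodule Qbar ℂ) {s n k : ℕ} (a : Fin s → Fin k → ℂ) (L : Fin n → PeriodPair)
    (σ ρ : Fin n → ℂ) (u : Fin n → Fin k → ℂ) (τ : Fin s → ℂ) (b : Fin n → ℂ)
    (c : (Fin s ⊕ Fin n) × Fin k → ℤ) : Prop :=
  (∀ j, point b u (mat c) j ∉ (L j).lattice ∧ IsAlgebraic ℚ (℘[L j] (point b u (mat c) j))) ∧
    ¬ Related W D (Sum.elim (logarithm τ a (mat c))
      (fun j => σ j * zetaW (L j) (point b u (mat c) j) + ρ j * point b u (mat c) j))

/-- **Theorem.** Let `s + n ≥ 1`. For all `D` and `N` there are `k₀` and `0 < δ ≤ s + n` such that for all `k ≥ k₀`, `k ≥ 1`,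
all data and all spaces `W` over the algebraic numbers of dimension at most `N`: (1) for all sequences `v ≥ 1` of exponent of
convergence at most `t ≥ 0` and all `θ < 1` there is a set `E` of real matrices of Hausdorff dimension at most
`((s + n) k - δ k + t) / (1 - θ)`, and of Lebesgue measure zero if `θ < 1 - ((s + n) k - δ k + t) / ((s + n) k)`, such that
for all `α` outside `E` and all large `r` ALL integral matrices `c` with `‖c - v_r α‖ ≤ (v_r) ^ θ` (maximum norm) are good;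
(2) for `0 ≤ θ < 1` there is a set `E` of dimension at most `1 + ((s + n) k - δ k) / (1 - θ)`, and of measure zero if this is
less than `(s + n) k`, such that for all `α` outside `E` only finitely many integral matrices `c` which satisfy
`‖c - r α‖ ≤ r ^ θ` for some real `r > 0` are not good. The exponent of convergence of `b ^ r`, `b > 1`, is at most `0`. -/
theorem result (s n D N : ℕ) (hsn : 1 ≤ s + n) : ∃ (k₀ : ℕ) (δ : ℝ), 0 < δ ∧ δ ≤ s + n ∧ ∀ k : ℕ, k₀ ≤ k → 1 ≤ k →
    (∀ a : Fin s → Fin k → ℂ, (∀ l i, IsAlgebraic ℚ (Complex.exp (a l i))) → (∀ l, LinearIndependent ℚ (a l)) →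
      ∀ L : Fin n → PeriodPair, (∀ j, IsAlgebraic ℚ (L j).g₂) → (∀ j, IsAlgebraic ℚ (L j).g₃) →
      ∀ σ ρ : Fin n → ℂ, (∀ j, IsAlgebraic ℚ (σ j)) → (∀ j, IsAlgebraic ℚ (ρ j)) → (∀ j, σ j ≠ 0 ∨ ρ j ≠ 0) →
      ∀ u : Fin n → Fin k → ℂ, (∀ j i, u j i ∈ (L j).lattice ∨ IsAlgebraic ℚ (℘[L j] (u j i))) →
      (∀ j, IndepMult (L j) (u j)) →
      ∀ (τ : Fin s → ℂ) (b : Fin n → ℂ), (∀ j, b j ∈ (L j).lattice ∨ IsAlgebraic ℚ (℘[L j] (b j))) →
      ∀ W : Submodule Qbar ℂ, Module.Finite Qbar W → Module.finrank Qbar W ≤ N →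
      (∀ (v : ℕ → ℝ) (t θ : ℝ), (∀ r, 1 ≤ v r) → 0 ≤ t → ExpLe v t → θ < 1 →
        ∃ E : Set ((Fin s ⊕ Fin n) × Fin k → ℝ),
          dimH E ≤ ENNReal.ofReal (((((s + n : ℕ) : ℝ) * k - δ * k) + t) / (1 - θ)) ∧
          (θ < 1 - ((((s + n : ℕ) : ℝ) * k - δ * k) + t) / (((s + n : ℕ) : ℝ) * k) → volume E = 0) ∧
          ∀ α : (Fin s ⊕ Fin n) × Fin k → ℝ, α ∉ E → ∃ r₀ : ℕ, ∀ r : ℕ, r₀ ≤ r →
            ∀ c : (Fin s ⊕ Fin n) × Fin k → ℤ, ‖vec c - v r • α‖ ≤ (v r) ^ θ → Good D W a L σ ρ u τ b c) ∧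
      (∀ θ : ℝ, 0 ≤ θ → θ < 1 →
        ∃ E : Set ((Fin s ⊕ Fin n) × Fin k → ℝ),
          dimH E ≤ ENNReal.ofReal (1 + (((s + n : ℕ) : ℝ) * k - δ * k) / (1 - θ)) ∧
          (1 + (((s + n : ℕ) : ℝ) * k - δ * k) / (1 - θ) < ((s + n : ℕ) : ℝ) * k → volume E = 0) ∧
          ∀ α : (Fin s ⊕ Fin n) × Fin k → ℝ, α ∉ E →
            {c : (Fin s ⊕ Fin n) × Fin k → ℤ | ¬ Good D W a L σ ρ u τ b c ∧
              ∃ r : ℝ, 0 < r ∧ ‖vec c - r • α‖ ≤ r ^ θ}.Finite)) ∧
    (∀ b : ℝ, 1 < b → ExpLe (fun r : ℕ => b ^ r) 0) := by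
  classical
  obtain ⟨k₀, C, δ₀, hδ₀, hmain⟩ := RandomSecondKind.result s n D N
  have hn0 : (0 : ℝ) < (s : ℝ) + n := by exact_mod_cast hsn
  refine ⟨k₀, min δ₀ ((s : ℝ) + n), lt_min hδ₀ hn0, min_le_right _ _, fun k hk hk1 => ⟨?_, fun b hb => expLe_geom b hb⟩⟩
  set δ : ℝ := min δ₀ ((s : ℝ) + n) with hδ
  have hδn : δ ≤ (s : ℝ) + n := min_le_right _ _
  have hδδ : δ ≤ δ₀ := min_le_left _ _
  have hk0 : (0 : ℝ) < k := by exact_mod_cast hk1
  have hs : 0 ≤ ((s + n : ℕ) : ℝ) * k - δ * k := by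
    have := mul_le_mul_of_nonneg_right hδn hk0.le
    push_cast
    linarith
  intro a ha ha' L h2 h3 σ ρ hσ hρ hne u hu hind τ b hb W hW hWN
  have hcount : ∀ ε : ℝ, 0 < ε → ∃ C' : ℝ, ∀ H : ℕ, 1 ≤ H →
      ({c : (Fin s ⊕ Fin n) × Fin k → ℤ | (∀ i, |c i| ≤ (H : ℤ)) ∧ ¬ Good D W a L σ ρ u τ b c}.ncard : ℝ) ≤
        C' * (H : ℝ) ^ ((((s + n : ℕ) : ℝ) * k - δ * k) + ε) := by
    intro ε hε
    refine ⟨C * 3 ^ (((s + n : ℕ) : ℝ) * k - δ * k), fun H hH => ?_⟩
    have hH0 : (0 : ℝ) < H := by exact_mod_cast hH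
    have hH1 : (1 : ℝ) ≤ H := by exact_mod_cast hH
    set A : Finset ℤ := Finset.Icc (-(H : ℤ)) H with hA
    have hAc : A.card ≤ 3 * H := by
      rw [hA, Int.card_Icc]
      omega
    have hAne : A.Nonempty := ⟨0, Finset.mem_Icc.2 ⟨by omega, by omega⟩⟩
    have h1 := hmain k hk a ha ha' L h2 h3 σ ρ hσ hρ hne u hu hind τ b hb A hAne W hW hWN
    have h2 : ({c : (Fin s ⊕ Fin n) × Fin k → ℤ | (∀ i, |c i| ≤ (H : ℤ)) ∧ ¬ Good D W a L σ ρ u τ b c}.ncard : ℝ) ≤
        (((Fintype.piFinset fun _ : Fin s ⊕ Fin n => Fintype.piFinset fun _ : Fin k => A).filter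
      (fun m => ¬ ((∀ j, point b u m j ∉ (L j).lattice ∧
          IsAlgebraic ℚ (℘[L j] (point b u m j))) ∧
        ¬ Related W D (Sum.elim (logarithm τ a m)
          (fun j => σ j * zetaW (L j) (point b u m j) + ρ j * point b u m j))))).card : ℝ) := by
      rw [← Set.ncard_coe_finset]
      apply Nat.cast_le.2
      apply Set.ncard_le_ncard_of_injOn (fun c : (Fin s ⊕ Fin n) × Fin k → ℤ => mat c)
      · rintro c ⟨hc, hg⟩
        rw [Finset.mem_coe, Finset.mem_filter, Fintype.mem_piFinset]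
        exact ⟨fun x => Fintype.mem_piFinset.2 fun i => Finset.mem_Icc.2 (abs_le.1 (hc (x, i))), hg⟩
      · intro c _ c' _ h
        funext x
        obtain ⟨j, r⟩ := x
        exact congrFun (congrFun h j) r
    refine h2.trans (h1.trans ?_)
    have hA1 : (1 : ℝ) ≤ A.card := by exact_mod_cast hAne.card_pos
    have hA3 : (A.card : ℝ) ≤ 3 * H := by exact_mod_cast hAc
    calc (C : ℝ) * (A.card : ℝ) ^ (((s + n : ℝ) * k : ℝ) - δ₀ * k)
        ≤ C * (A.card : ℝ) ^ (((s + n : ℕ) : ℝ) * k - δ * k) := by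
          apply mul_le_mul_of_nonneg_left _ (Nat.cast_nonneg _)
          apply Real.rpow_le_rpow_of_exponent_le hA1
          have := mul_le_mul_of_nonneg_right hδδ hk0.le
          push_cast
          linarith
      _ ≤ C * (3 * (H : ℝ)) ^ (((s + n : ℕ) : ℝ) * k - δ * k) := by
          apply mul_le_mul_of_nonneg_left _ (Nat.cast_nonneg _)
          exact Real.rpow_le_rpow (by linarith) hA3 hs
      _ = (C * 3 ^ (((s + n : ℕ) : ℝ) * k - δ * k)) * (H : ℝ) ^ (((s + n : ℕ) : ℝ) * k - δ * k) := by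
          rw [Real.mul_rpow (by norm_num) hH0.le]
          ring
      _ ≤ (C * 3 ^ (((s + n : ℕ) : ℝ) * k - δ * k)) * (H : ℝ) ^ ((((s + n : ℕ) : ℝ) * k - δ * k) + ε) := by
          apply mul_le_mul_of_nonneg_left _ (by positivity)
          exact Real.rpow_le_rpow_of_exponent_le hH1 (by linarith)
  have hne' : Nonempty ((Fin s ⊕ Fin n) × Fin k) := by
    have h1 : Nonempty (Fin s ⊕ Fin n) := by
      rw [← Fintype.card_pos_iff, Fintype.card_sum, Fintype.card_fin, Fintype.card_fin]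
      omega
    exact ⟨(h1.some, ⟨0, by omega⟩)⟩
  have hcard : ((Fintype.card ((Fin s ⊕ Fin n) × Fin k) : ℕ) : ℝ) = ((s + n : ℕ) : ℝ) * k := by
    rw [Fintype.card_prod, Fintype.card_sum, Fintype.card_fin, Fintype.card_fin, Fintype.card_fin]
    push_cast
    rfl
  refine ⟨fun v t θ hv ht hE hθ => ?_, fun θ hθ0 hθ1 => ?_⟩
  · obtain ⟨E, hE1, hE2, hE3⟩ := windows_of_box (P := fun c => ¬ Good D W a L σ ρ u τ b c) hs hcount v t θ hv ht hE hθ
    refine ⟨E, hE1, fun hlt => hE2 ?_, fun α hα => ?_⟩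
    · rw [hcard]
      exact hlt
    · obtain ⟨r₀, h⟩ := hE3 α hα
      exact ⟨r₀, fun r hr c hc => not_not.1 (h r hr c hc)⟩
  · obtain ⟨E, hE1, hE2, hE3⟩ := rays_of_box (P := fun c => ¬ Good D W a L σ ρ u τ b c) hs hcount θ hθ0 hθ1
    refine ⟨E, hE1, fun hlt => hE2 ?_, fun α hα => hE3 α hα⟩
    rw [hcard]
    exact hlt

end Pool.Agent.Results.MP_1eadae_ag.SecondKindInWindows
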